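import Mathlib
import Pool.Agent.L0h26.HaC

set_option autoImplicit false

/-!
# Fixed `lam ≥ 2`: abelian automorphism groups which fix a block

Let `A` be an abelian group of automorphisms of a symmetric `2-(v, k, lam)` design, `lam ≥ 2`, such
that all prime divisors of the order of `A` are greater than `lam`, and let `A` fix a block or a
point. Then the order of `A` is at most `k` or at most `(1 + √(k - lam)) ^ 2`; so it is at
most `k + 2 √k`. The second bound is attained by a group of order nine of the biplane with 16 points.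
Hence, for `lam ≥ 2` and `c > 1`, only finitely many symmetric designs with the given `lam` have such
a group of order at least `c k`.

For `lam = 1` both statements are false: a translation plane of order `q` has an abelian group of
order `q ^ 2 = (k - 1) ^ 2` which fixes a line.

Proof. The points and blocks fixed by a subgroup `S` form a substructure which is closed under
joining and intersecting; if `S` fixes a flag `(x, b)` and `f` points of `b`, then by double counting
(here `lam ≥ 2` is used) exactly `f` fixed blocks contain `x`, there are `1 + f (f - 1) / lam` fixed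
points, and `(f - 1) ^ 2 + lam ≤ f'` if `S' < S` has `f' > f` fixed points on `b`. The orbit of
a point `z` of `b` under the abelian group `A` is fixed pointwise by the stabilizer of `z`. If `z` has
a longest orbit `M` then in a chain `A > A_z = S_1 > S_2 > ... > S_t = 1` of stabilizers of points of
`b` all indices are at most `M`, and `M ≤ f(S_1)`; for `t ≥ 2` the inequalities for `f(S_i)` give
`|A| ≤ M ^ t ≤ (1 + √(k - lam)) ^ 2`.
-/

namespace Pool.Agent.Results.MP_c38931_co.AbelianFixedBlock

/-- The blocks `B i` (`i : Fin v`) form a symmetric `2-(v, k, lam)` design on the points `Fin v`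
with `2 ≤ k < v`. -/
structure IsSymmetricDesign (v k lam : ℕ) (B : Fin v → Finset (Fin v)) : Prop where
  two_le : 2 ≤ k
  lt : k < v
  size : ∀ i, (B i).card = k
  pair : ∀ x y : Fin v, x ≠ y →
    (Finset.univ.filter (fun i => x ∈ B i ∧ y ∈ B i)).card = lam

/-- `A` is an abelian group of automorphisms of the design with the blocks `B i`, all prime
divisors of the order of `A` are greater than `lam`, and `A` fixes a block or a point. -/
structure IsAbelianFixing {v : ℕ} (lam : ℕ) (B : Fin v → Finset (Fin v))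
    (A : Subgroup (Equiv.Perm (Fin v))) : Prop where
  aut : ∀ σ ∈ A, ∀ i, ∃ j, (B i).image σ = B j
  abelian : ∀ σ ∈ A, ∀ τ ∈ A, σ * τ = τ * σ
  primes : ∀ p : ℕ, p.Prime → p ∣ Nat.card A → lam < p
  fixes : (∃ i, ∀ σ ∈ A, (B i).image σ = B i) ∨ ∃ x, ∀ σ ∈ A, σ x = x

open Pool.Agent.L0h26.Hall in
theorem bound {v k lam : ℕ} {B : Fin v → Finset (Fin v)} {A : Subgroup (Equiv.Perm (Fin v))}
    (hlam : 2 ≤ lam) (h : IsSymmetricDesign v k lam B) (hA : IsAbelianFixing lam B A) :
    (Nat.card A : ℝ) ≤ max (k : ℝ) ((1 + Real.sqrt (k - lam)) ^ 2) := by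
  have hd : Pool.Agent.N345.Sym.Des v k lam B := ⟨h.two_le, h.lt, h.size, h.pair⟩
  have hS := sd_of_des hd (by omega)
  have hlk := hd.lam_lt (by omega)
  let _ : MulAction A (Blk B) := actB A hA.aut
  have hau : Aut A (Inc B) := aut_act A hA.aut
  have hcomm : ∀ a c : A, a * c = c * a := fun a c => Subtype.ext (hA.abelian a.1 a.2 c.1 c.2)
  have key : Nat.card A ≤ k ∨ Nat.card A ≤ (Nat.sqrt (k - lam) + 1) ^ 2 := by
    rcases hA.fixes with ⟨i, hi⟩ | ⟨x, hx⟩
    · exact abelian_bound hS hau hlam h.two_le hA.primes hcomm (b := blk B i)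
        (fix_blk A hA.aut hi)
    · exact abelian_bound hS.dual (hau.dual hS hlk) hlam h.two_le hA.primes hcomm (b := x)
        (fun g => hx g.1 g.2)
  rw [le_max_iff]
  rcases key with h1 | h1
  · left
    exact_mod_cast h1
  · right
    have h2 : (Nat.card A : ℝ) ≤ ((Nat.sqrt (k - lam) : ℝ) + 1) ^ 2 := by exact_mod_cast h1
    have h3 : (Nat.sqrt (k - lam)) ^ 2 ≤ k - lam := Nat.sqrt_le' _
    have h4 : ((Nat.sqrt (k - lam) : ℝ)) ^ 2 ≤ (k : ℝ) - lam := by
      have h5 : (((Nat.sqrt (k - lam)) ^ 2 : ℕ) : ℝ) ≤ ((k - lam : ℕ) : ℝ) := by exact_mod_cast h3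
      rw [Nat.cast_sub hlk.le] at h5
      push_cast at h5
      exact h5
    have h7 : (Nat.sqrt (k - lam) : ℝ) ≤ Real.sqrt (k - lam) := Real.le_sqrt_of_sq_le h4
    refine h2.trans ?_
    rw [add_comm]
    gcongr

theorem bound' {v k lam : ℕ} {B : Fin v → Finset (Fin v)} {A : Subgroup (Equiv.Perm (Fin v))}
    (hlam : 2 ≤ lam) (h : IsSymmetricDesign v k lam B) (hA : IsAbelianFixing lam B A) :
    (Nat.card A : ℝ) ≤ k + 2 * Real.sqrt k := by
  have h1 := bound hlam h hA
  have h3 := Real.sqrt_nonneg (k : ℝ)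
  have h6 : (2 : ℝ) ≤ lam := by exact_mod_cast hlam
  rw [le_max_iff] at h1
  rcases h1 with h1 | h1
  · linarith
  · have hd : Pool.Agent.N345.Sym.Des v k lam B := ⟨h.two_le, h.lt, h.size, h.pair⟩
    have hlk : (lam : ℝ) ≤ k := by exact_mod_cast (hd.lam_lt (by omega)).le
    have h4 : Real.sqrt (k - lam) ^ 2 = (k : ℝ) - lam := Real.sq_sqrt (by linarith)
    have h5 : Real.sqrt (k - lam) ≤ Real.sqrt k := Real.sqrt_le_sqrt (by linarith)
    nlinarith

/-! ## The biplane with 16 points -/

/-- the points are the cells of a `4 × 4` table; the block of a cell consists of the other cells in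
its row or in its column -/
def biplane (i : Fin 16) : Finset (Fin 16) :=
  Finset.univ.filter fun j => j ≠ i ∧ (j.1 / 4 = i.1 / 4 ∨ j.1 % 4 = i.1 % 4)

/-- rotation of three rows or columns -/
def rot (a : Fin 3) (r : ℕ) : ℕ := if r < 3 then (r + a.1) % 3 else r

/-- the images of the cells if the rows are rotated by `a` and the columns by `b` -/
def mv (g : Fin 3 × Fin 3) (i : Fin 16) : Fin 16 :=
  ⟨(4 * rot g.1 (i.1 / 4) + rot g.2 (i.1 % 4)) % 16, Nat.mod_lt _ (by norm_num)⟩

theorem mv_add : ∀ g g' : Fin 3 × Fin 3, ∀ i, mv (g + g') i = mv g (mv g' i) := by decide +kernel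

theorem mv_zero : ∀ i, mv 0 i = i := by decide +kernel

theorem mv_neg : ∀ g : Fin 3 × Fin 3, ∀ i, mv (-g) (mv g i) = i ∧ mv g (mv (-g) i) = i := by
  decide +kernel

/-- the action of the group of order nine -/
def mvHom : Multiplicative (Fin 3 × Fin 3) →* Equiv.Perm (Fin 16) where
  toFun g :=
    { toFun := mv g.toAdd
      invFun := mv (-g.toAdd)
      left_inv := fun i => (mv_neg _ i).1
      right_inv := fun i => (mv_neg _ i).2 }
  map_one' := Equiv.ext fun i => mv_zero i
  map_mul' g g' := Equiv.ext fun i => mv_add g.toAdd g'.toAdd i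

theorem biplane_design : IsSymmetricDesign 16 6 2 biplane :=
  ⟨by norm_num, by norm_num, by decide +kernel, by decide +kernel⟩

theorem biplane_group : IsAbelianFixing 2 biplane mvHom.range ∧ Nat.card mvHom.range = 9 := by
  have hinj : Function.Injective mvHom := by
    rw [injective_iff_map_eq_one]
    intro g hg
    have h1 : mv g.toAdd 0 = 0 := congrArg (fun e : Equiv.Perm (Fin 16) => e 0) hg
    have key : ∀ g : Fin 3 × Fin 3, mv g 0 = 0 → g = 0 := by decide +kernel
    exact key _ h1
  have hcard : Nat.card mvHom.range = 9 := by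
    rw [← Nat.card_congr (MonoidHom.ofInjective hinj).toEquiv, Nat.card_eq_fintype_card]
    rfl
  refine ⟨⟨?_, ?_, ?_, ?_⟩, hcard⟩
  · rintro σ ⟨g, rfl⟩ i
    refine ⟨mv g.toAdd i, ?_⟩
    have key : ∀ (g : Fin 3 × Fin 3) (i : Fin 16), (biplane i).image (mv g) = biplane (mv g i) := by
      decide +kernel
    exact key _ _
  · rintro σ ⟨g, rfl⟩ τ ⟨g', rfl⟩
    rw [← map_mul, ← map_mul, mul_comm]
  · intro p hp hdvd
    rw [hcard] at hdvd
    have h1 : p ∣ 3 := by
      have h2 : p ∣ 3 ^ 2 := hdvd
      exact hp.dvd_of_dvd_pow h2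
    rw [(Nat.prime_dvd_prime_iff_eq hp Nat.prime_three).1 h1]
    norm_num
  · right
    refine ⟨15, ?_⟩
    rintro σ ⟨g, rfl⟩
    have key : ∀ g : Fin 3 × Fin 3, mv g 15 = 15 := by decide +kernel
    exact key _

/-- (1) Let `lam ≥ 2`. An abelian group of automorphisms of a symmetric `2-(v, k, lam)` design which
fixes a block or a point, and the order of which has only prime divisors greater than `lam`, has
order at most `k` or at most `(1 + √(k - lam)) ^ 2`. (2) The second bound is attained, and greater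
than `k`, for a group of order nine of a symmetric `2-(16, 6, 2)` design. (3) For all `lam ≥ 2`
and `c > 1` only finitely many pairs `(v, k)` are the parameters of a symmetric `2-(v, k, lam)` design
with such a group of order at least `c k`. -/
theorem result :
    (∀ (v k lam : ℕ) (B : Fin v → Finset (Fin v)) (A : Subgroup (Equiv.Perm (Fin v))), 2 ≤ lam →
      IsSymmetricDesign v k lam B → IsAbelianFixing lam B A →
        (Nat.card A : ℝ) ≤ max (k : ℝ) ((1 + Real.sqrt (k - lam)) ^ 2)) ∧
    (∃ (B : Fin 16 → Finset (Fin 16)) (A : Subgroup (Equiv.Perm (Fin 16))),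
      IsSymmetricDesign 16 6 2 B ∧ IsAbelianFixing 2 B A ∧
        (Nat.card A : ℝ) = (1 + Real.sqrt ((6 : ℝ) - 2)) ^ 2 ∧ 6 < Nat.card A) ∧
    (∀ (lam : ℕ) (c : ℝ), 2 ≤ lam → 1 < c →
      {p : ℕ × ℕ | ∃ (B : Fin p.1 → Finset (Fin p.1)) (A : Subgroup (Equiv.Perm (Fin p.1))),
        IsSymmetricDesign p.1 p.2 lam B ∧ IsAbelianFixing lam B A ∧
          c * p.2 ≤ Nat.card A}.Finite) := by
  refine ⟨fun v k lam B A hlam h hA => bound hlam h hA, ?_, ?_⟩
  · refine ⟨biplane, mvHom.range, biplane_design, biplane_group.1, ?_, ?_⟩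
    · rw [biplane_group.2]
      have h1 : Real.sqrt ((6 : ℝ) - 2) = 2 := by
        rw [show (6 : ℝ) - 2 = 2 ^ 2 by norm_num, Real.sqrt_sq (by norm_num)]
      rw [h1]
      norm_num
    · rw [biplane_group.2]
      norm_num
  intro lam c hlam hc
  obtain ⟨N, hN⟩ := exists_nat_gt ((2 / (c - 1)) ^ 2)
  refine ((Set.finite_Iic (N * N)).prod (Set.finite_Iic N)).subset ?_
  rintro ⟨v, k⟩ ⟨B, A, h, hA, hcard⟩
  have h1 := bound' hlam h hA
  simp only at hcard h1
  have hk : 2 ≤ k := h.two_le
  have hk0 : (0 : ℝ) < k := by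
    have : 0 < k := by omega
    exact_mod_cast this
  have hs : 0 < Real.sqrt k := Real.sqrt_pos.2 hk0
  have hsq : Real.sqrt k * Real.sqrt k = k := Real.mul_self_sqrt hk0.le
  have h2 : (c - 1) * Real.sqrt k ≤ 2 := by
    by_contra hcon
    push Not at hcon
    nlinarith
  have h3 : Real.sqrt k ≤ 2 / (c - 1) := by
    rw [le_div_iff₀ (by linarith)]
    linarith
  have h4 : (k : ℝ) ≤ (2 / (c - 1)) ^ 2 := by
    rw [← hsq, pow_two]
    exact mul_self_le_mul_self hs.le h3
  have h5 : k ≤ N := by
    have : (k : ℝ) < N := lt_of_le_of_lt h4 hN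
    exact le_of_lt (by exact_mod_cast this)
  have hd : Pool.Agent.N345.Sym.Des v k lam B := ⟨h.two_le, h.lt, h.size, h.pair⟩
  have h6 := hd.lam_v (by omega)
  have h7 : v ≤ k * k := by nlinarith
  exact ⟨h7.trans (Nat.mul_le_mul h5 h5), h5⟩

end Pool.Agent.Results.MP_c38931_co.AbelianFixedBlock
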