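import Mathlib
import Pool.Agent.L0h26.HaD
import Pool.Agent.L0h26.HaH

set_option autoImplicit false

/-!
# Fixed `lam ≥ 2`: almost no `k` admits a symmetric design with a large abelian `p`-group

Let `lam ≥ 2` be fixed. For all but `O(X ^ (1 - η))` of the integers `k ≤ X` no symmetric
`2-(v, k, lam)` design has an abelian group of automorphisms of order `p ^ a ≥ k ^ (1 + δ)`, where
`p > lam` is a prime and `a ≥ 2`; here `η > 0` depends on `δ > 0`. For all but
`O(X log log X / log X)` of the `k ≤ X` no symmetric `2-(v, k, lam)` design has a group of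
automorphisms with an order divisible by `p ^ 2`, `p ≥ 1 + √k` a prime. (The theorem of Bruck, Ryser
and Chowla should leave at least about `X / √(log X)` of the `k ≤ X`.) The first statement is false
for `lam = 1`: a Desarguesian plane of prime order `p = k - 1` has an abelian group of
order `p ^ 2`, and there are about `X / log X` such `k ≤ X`.

Proof. A large abelian `p`-group `A` fixes no point (`AbelianFixedBlock`), so the stabilizer `S` of a
point fixes at least two points and a block `b` through them. Let `f` be the number of fixed points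
of `S` on `b`. The points and blocks fixed by `S` form a symmetric design with the same `lam`, so the
number of fixed points of `S` is `(f (f - 1) + lam) / lam`, and it is divisible by `p`. If `q = p ^ e`
is the length of a shortest nontrivial orbit of `S` on `b` then `q ∣ k - f`, and the stabilizer of a
point of this orbit fixes more than `(f - 1) ^ 2` points of `b`. If `q` is greater than `f ^ (1 + ε)`
then the condition `q ∣ k - f`, `p ∣ f (f - 1) + lam` is rare; otherwise one continues with the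
stabilizer. As the numbers `f` at least square in each step, the orders multiply to at
most `k ^ (1 + ε)`. The remaining case, `p ^ 2 ∣ v`, is rare as well; for `p > k ^ (3/4)` this is a
gap argument for the solutions of the Pell equations `x ^ 2 - m y ^ 2 = 1 - 4 lam`.
-/

namespace Pool.Agent.Results.MP_c38931_co.LargeAbelianGroups

/-- The blocks `B i` (`i : Fin v`) form a symmetric `2-(v, k, lam)` design on the points `Fin v`
with `2 ≤ k < v`. -/
structure IsSymmetricDesign (v k lam : ℕ) (B : Fin v → Finset (Fin v)) : Prop where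
  two_le : 2 ≤ k
  lt : k < v
  size : ∀ i, (B i).card = k
  pair : ∀ x y : Fin v, x ≠ y →
    (Finset.univ.filter (fun i => x ∈ B i ∧ y ∈ B i)).card = lam

/-- The permutations in `A` map blocks to blocks. -/
def IsAutGroup {v : ℕ} (B : Fin v → Finset (Fin v)) (A : Subgroup (Equiv.Perm (Fin v))) : Prop :=
  ∀ σ ∈ A, ∀ i, ∃ j, (B i).image σ = B j

/-- Some symmetric `2-(v, k, lam)` design has an abelian group of automorphisms of
order `p ^ a ≥ k ^ (1 + δ)`, where `p > lam` is a prime and `a ≥ 2`. -/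
def HasAbelian (lam : ℕ) (δ : ℝ) (k : ℕ) : Prop :=
  ∃ (v : ℕ) (B : Fin v → Finset (Fin v)) (A : Subgroup (Equiv.Perm (Fin v))) (p a : ℕ),
    IsSymmetricDesign v k lam B ∧ IsAutGroup B A ∧ (∀ σ ∈ A, ∀ τ ∈ A, σ * τ = τ * σ) ∧
      p.Prime ∧ lam < p ∧ 2 ≤ a ∧ Nat.card A = p ^ a ∧ (k : ℝ) ^ (1 + δ) ≤ Nat.card A

/-- Some symmetric `2-(v, k, lam)` design has a group of automorphisms with an order divisible
by `p ^ 2`, where `p ≥ 1 + √k` is a prime. -/
def HasSquare (lam k : ℕ) : Prop :=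
  ∃ (v : ℕ) (B : Fin v → Finset (Fin v)) (A : Subgroup (Equiv.Perm (Fin v))) (p : ℕ),
    IsSymmetricDesign v k lam B ∧ IsAutGroup B A ∧ p.Prime ∧ 1 + Real.sqrt k ≤ p ∧
      p ^ 2 ∣ Nat.card A

open Pool.Agent.L0h26.Hall Pool.Agent.L0h26.HallE

theorem abelian_cases {lam s k Y : ℕ} {δ : ℝ} (hlam : 2 ≤ lam) (hs : 1 ≤ s)
    (hsd : 1 / (s : ℝ) ≤ δ) (hk4 : 4 ^ s ≤ k) (hY : 1 ≤ Y) (hYk : Y ^ (10 * s) < k)
    (hW : HasAbelian lam δ k) :
    (∃ p e f : ℕ, p.Prime ∧ 1 ≤ e ∧ 2 ≤ f ∧ (f - 1) ^ 2 + lam ≤ k ∧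
        Y ≤ p ^ e ∧ p ^ e ≤ k ∧ p ^ e ∣ k - f ∧ (f - 1) ^ (2 * s + 1) < (p ^ e) ^ (2 * s) ∧
        p ∣ ph lam f) ∨
      ∃ p j : ℕ, p.Prime ∧ 2 ≤ j ∧ Y ≤ p ^ j ∧ p ^ j ∣ ph lam k := by
  obtain ⟨v, B, A, p, a, h, hA, hcomm, hp, hpl, ha, hcard, hbig⟩ := hW
  have hd : Pool.Agent.N345.Sym.Des v k lam B := ⟨h.two_le, h.lt, h.size, h.pair⟩
  have hS := sd_of_des hd (by omega)
  have hlk := hd.lam_lt (by omega)
  let _ : MulAction A (Blk B) := actB A hA
  have hau : Aut A (Inc B) := aut_act A hA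
  have hk1 : 1 ≤ k := le_trans (by norm_num) h.two_le
  have hkR : (1 : ℝ) ≤ k := by exact_mod_cast hk1
  have hsR : (0 : ℝ) < s := by exact_mod_cast hs
  have hpow : k ^ (s + 1) ≤ Nat.card A ^ s := by
    have h1 : ((k : ℝ) ^ (1 + δ)) ^ s ≤ (Nat.card A : ℝ) ^ s :=
      pow_le_pow_left₀ (by positivity) hbig s
    have h2 : (k : ℝ) ^ (s + 1) ≤ ((k : ℝ) ^ (1 + δ)) ^ s := by
      rw [← Real.rpow_natCast, ← Real.rpow_natCast, ← Real.rpow_mul (by linarith)]
      apply Real.rpow_le_rpow_of_exponent_le hkR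
      push_cast
      have h3 : 1 ≤ δ * s := by
        rw [div_le_iff₀ hsR] at hsd
        exact hsd
      linarith
    exact_mod_cast h2.trans h1
  have h4k : 4 * k ≤ Nat.card A := by
    have h1 : (4 * k) ^ s ≤ Nat.card A ^ s := by
      calc (4 * k) ^ s = 4 ^ s * k ^ s := mul_pow _ _ _
        _ ≤ k * k ^ s := Nat.mul_le_mul_right _ hk4
        _ = k ^ (s + 1) := by ring
        _ ≤ _ := hpow
    exact (Nat.pow_le_pow_iff_left (by omega)).1 h1
  have h5 : (Nat.sqrt (k - lam) + 1) ^ 2 < Nat.card A := by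
    have h6 : Nat.sqrt (k - lam) ^ 2 ≤ k - lam := Nat.sqrt_le' _
    have h7 : Nat.sqrt (k - lam) ≤ k - lam := Nat.sqrt_le_self _
    have h8 : (Nat.sqrt (k - lam) + 1) ^ 2 =
      Nat.sqrt (k - lam) ^ 2 + 2 * Nat.sqrt (k - lam) + 1 := by ring
    omega
  have hne : Nonempty (Fin v) := ⟨⟨0, by have := h.lt; omega⟩⟩
  have hbig2 : Y ^ (5 * (2 * s)) * k ^ (2 * s + 1) < (p ^ a) ^ (2 * s) := by
    rw [← hcard]
    calc Y ^ (5 * (2 * s)) * k ^ (2 * s + 1) = Y ^ (10 * s) * k ^ (2 * s + 1) := by ring_nf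
      _ < k * k ^ (2 * s + 1) := Nat.mul_lt_mul_of_pos_right hYk (by positivity)
      _ = (k ^ (s + 1)) ^ 2 := by ring
      _ ≤ (Nat.card A ^ s) ^ 2 := Nat.pow_le_pow_left hpow 2
      _ = Nat.card A ^ (2 * s) := by ring
  rcases main_cases hS hau hlam h.two_le hp hcard hpl
    (fun x y => Subtype.ext (hcomm x.1 x.2 y.1 y.2)) hlk ha (by omega) h5 hY (by omega) hbig2
    with ⟨e, f, h⟩ | ⟨j, h⟩
  · exact Or.inl ⟨p, e, f, hp, h⟩
  · exact Or.inr ⟨p, j, hp, h⟩

theorem square_cases {lam k : ℕ} (hlam : 2 ≤ lam) (hk0 : lam ^ 2 ≤ k) (hW : HasSquare lam k) :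
    ∃ p : ℕ, p.Prime ∧ k ≤ (p - 1) ^ 2 ∧ (p ^ 2 ∣ ph lam k ∨
      ∃ f : ℕ, 2 ≤ f ∧ f < p ∧ (f - 1) ^ 2 + lam ≤ k ∧ p ∣ k - f ∧ p ∣ ph lam f) := by
  obtain ⟨v, B, A, p, h, hA, hp, hpk, hdvd⟩ := hW
  have hd : Pool.Agent.N345.Sym.Des v k lam B := ⟨h.two_le, h.lt, h.size, h.pair⟩
  have hS := sd_of_des hd (by omega)
  have hlk := hd.lam_lt (by omega)
  have hne : Nonempty (Fin v) := ⟨⟨0, by have := h.lt; omega⟩⟩
  have hkp : k ≤ (p - 1) ^ 2 := by
    have h1 : Real.sqrt k ≤ ((p - 1 : ℕ) : ℝ) := by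
      rw [Nat.cast_sub hp.one_le]
      push_cast
      linarith
    have h2 : (k : ℝ) ≤ ((p - 1 : ℕ) : ℝ) ^ 2 := (Real.sqrt_le_left (by positivity)).1 h1
    exact_mod_cast h2
  have hpl : lam < p := by
    have h1 : lam ≤ p - 1 := (Nat.pow_le_pow_iff_left (by norm_num)).1 (hk0.trans hkp)
    have := hp.two_le
    omega
  have : Fact p.Prime := ⟨hp⟩
  obtain ⟨T, hT⟩ := Sylow.exists_subgroup_card_pow_prime (G := A) p hdvd
  set T' : Subgroup (Equiv.Perm (Fin v)) := T.map A.subtype with hT'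
  have hcard : Nat.card T' = p ^ 2 := by
    rw [← hT]
    exact (Nat.card_congr (T.equivMapOfInjective A.subtype A.subtype_injective).toEquiv).symm
  have hA' : IsAutGroup B T' := by
    rintro σ ⟨τ, hτ, rfl⟩
    exact hA τ.1 τ.2
  let _ : MulAction T' (Blk B) := actB T' hA'
  have hau : Aut T' (Inc B) := aut_act T' hA'
  rcases sq_cases hS hau hlam h.two_le hp hcard hpl hlk hkp with h1 | h1
  · exact ⟨p, hp, hkp, Or.inl h1⟩
  · exact ⟨p, hp, hkp, Or.inr h1⟩

/-- Let `lam ≥ 2`. (1) For every `δ > 0` there are `η > 0` and `C` such that for at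
most `C X ^ (1 - η)` of the integers `k ≤ X` some symmetric `2-(v, k, lam)` design has an abelian
group of automorphisms of order `p ^ a ≥ k ^ (1 + δ)` for a prime `p > lam` and some `a ≥ 2`.
(2) There is a `C` such that for at most `C X log log X / log X` of the integers `k ≤ X`, `X ≥ 3`,
some symmetric `2-(v, k, lam)` design has a group of automorphisms with an order divisible
by `p ^ 2` for a prime `p ≥ 1 + √k`. -/
theorem result :
    (∀ lam : ℕ, 2 ≤ lam → ∀ δ : ℝ, 0 < δ → ∃ η C : ℝ, 0 < η ∧ ∀ X : ℕ, 1 ≤ X →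
      ({k : ℕ | k ≤ X ∧ HasAbelian lam δ k}.ncard : ℝ) ≤ C * (X : ℝ) ^ (1 - η)) ∧
    (∀ lam : ℕ, 2 ≤ lam → ∃ C : ℝ, ∀ X : ℕ, 3 ≤ X →
      ({k : ℕ | k ≤ X ∧ HasSquare lam k}.ncard : ℝ) ≤
        C * (X * Real.log (Real.log X) / Real.log X)) := by
  constructor
  · intro lam hlam δ hδ
    obtain ⟨s, hs⟩ := exists_nat_gt (1 / δ)
    have hs0 : (0 : ℝ) < s := lt_trans (by positivity) hs
    have hs1 : 1 ≤ s := by exact_mod_cast hs0
    have hsd : 1 / (s : ℝ) ≤ δ := by
      rw [div_lt_iff₀ hδ] at hs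
      rw [div_le_iff₀ hs0]
      linarith
    obtain ⟨C, hC⟩ := final1 (lam := lam) (by omega) hs1 (HasAbelian lam δ)
      (fun k Y h1 h2 h3 h4 => abelian_cases hlam hs1 hsd h1 h2 h3 h4)
    refine ⟨1 / (160 * (s : ℝ) ^ 2), C, by positivity, fun X hX => ?_⟩
    refine le_trans (le_of_eq ?_) (hC X hX)
    congr 2
    ext k
    simp only [Set.mem_ofPred_eq]
    refine ⟨fun h => ⟨?_, h⟩, fun h => h.2⟩
    obtain ⟨-, v, B, A, p, a, hB, -⟩ := h
    have := hB.two_le
    omega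
  · intro lam hlam
    obtain ⟨C, hC⟩ := final2 (lam := lam) (by omega) (lam ^ 2) (HasSquare lam)
      (fun k h1 h2 => square_cases hlam h1 h2)
    refine ⟨C, fun X hX => ?_⟩
    refine le_trans (le_of_eq ?_) (hC X hX)
    congr 2
    ext k
    simp only [Set.mem_ofPred_eq]
    refine ⟨fun h => ⟨?_, h⟩, fun h => h.2⟩
    obtain ⟨-, v, B, A, p, hB, -⟩ := h
    have := hB.two_le
    omega

end Pool.Agent.Results.MP_c38931_co.LargeAbelianGroups
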