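import Mathlib
import Pool.Agent.L0h26.HbQ

set_option autoImplicit false

/-!
# Fixed `lam ≥ 2`: large prime divisors of `v` and point-transitive groups

Let `lam ≥ 2` be fixed.
(1) For all `k` outside a set of density zero, no prime divisor `q ≥ 1 + √k` of `v` divides the order
of a group of automorphisms of a symmetric `2-(v, k, lam)` design.
(2) The set of all `k` for which some symmetric `2-(v, k, lam)` design has a group of automorphisms
with an order divisible by `v`, for instance a group which is transitive on the points, has upper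
density at most `1 / 19`. (No condition on the group, no classification.)

Proof of (1). Let `σ` be an automorphism of order `q`. By `OddFixedPointsAllPrimes` (my other hand-in)
`σ` has a fixed point unless `k` is in a set of density zero. As `q > lam` and `q ∣ v`, the fixed
points and fixed blocks form a symmetric design with the same `lam` and with block size
`f ≤ 1 + √(k - lam) ≤ q`, where `q ∣ k - f` and `q ∣ f (f - 1) + lam`. By the counting result used for
`LargeAbelianGroups` this is possible only for `O(X log log X / log X)` of the `k ≤ X`.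

Proof of (2). By (1), apart from a set of density zero, all prime divisors of `v` are less than
`1 + √k`, so `k (k - 1) + lam` is a `√X`-smooth number of size about `X ^ 2`. The mean over `k ≤ X`
of the sum `S` of `log q` over all prime divisors `q ≤ √X` of this number is `(log X) / 2`, by
Mertens' theorem for the character of discriminant `1 - 4 lam`, and the mean of `S ^ 2`
is `3 (log X) ^ 2 / 8`; the smooth values have `S ≥ (2 - o(1)) log X`. Now compare with the mean
of `(S - 5 (log X) / 12) ^ 2`.
-/

namespace Pool.Agent.Results.MP_c38931_co.LargePrimesTransitive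

open Filter Topology

/-- The blocks `B i` (`i : Fin v`) form a symmetric `2-(v, k, lam)` design on the points `Fin v`
with `2 ≤ k < v`. -/
structure IsSymmetricDesign (v k lam : ℕ) (B : Fin v → Finset (Fin v)) : Prop where
  two_le : 2 ≤ k
  lt : k < v
  size : ∀ i, (B i).card = k
  pair : ∀ x y : Fin v, x ≠ y →
    (Finset.univ.filter (fun i => x ∈ B i ∧ y ∈ B i)).card = lam

/-- The permutations in `A` map blocks to blocks. -/
def IsAutGroup {v : ℕ} (B : Fin v → Finset (Fin v)) (A : Subgroup (Equiv.Perm (Fin v))) : Prop :=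
  ∀ σ ∈ A, ∀ i, ∃ j, (B i).image σ = B j

/-- Some symmetric `2-(v, k, lam)` design has a group of automorphisms with an order divisible by
some prime divisor `q ≥ 1 + √k` of `v`. -/
def HasLargePrime (lam k : ℕ) : Prop :=
  ∃ (v : ℕ) (B : Fin v → Finset (Fin v)) (A : Subgroup (Equiv.Perm (Fin v))) (q : ℕ),
    IsSymmetricDesign v k lam B ∧ IsAutGroup B A ∧ q.Prime ∧ 1 + Real.sqrt k ≤ q ∧ q ∣ v ∧
      q ∣ Nat.card A

/-- Some symmetric `2-(v, k, lam)` design has a group of automorphisms which is transitive on the
points or has an order divisible by `v`. -/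
def HasTransitive (lam k : ℕ) : Prop :=
  ∃ (v : ℕ) (B : Fin v → Finset (Fin v)) (A : Subgroup (Equiv.Perm (Fin v))),
    IsSymmetricDesign v k lam B ∧ IsAutGroup B A ∧
      ((∀ x y : Fin v, ∃ h ∈ A, h x = y) ∨ v ∣ Nat.card A)

/-- Let `lam ≥ 2`. (1) The set of all `k` with `HasLargePrime lam k` has natural density zero.
(2) The set of all `k` with `HasTransitive lam k` has upper density at most `1 / 19`. -/
theorem result (lam : ℕ) (hlam : 2 ≤ lam) :
    Tendsto (fun N : ℕ => ({k : ℕ | k ≤ N ∧ HasLargePrime lam k}.ncard : ℝ) / (N : ℝ))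
      atTop (𝓝 0) ∧
    ∀ ε : ℝ, 0 < ε → ∀ᶠ N : ℕ in atTop,
      ({k : ℕ | k ≤ N ∧ HasTransitive lam k}.ncard : ℝ) ≤ (1 / 19 + ε) * N := by
  constructor
  · refine Pool.Agent.L0h26.HbQ.small_tends
      (Pool.Agent.L0h26.HbQ.small_of_le ?_ (Pool.Agent.L0h26.HbQ.small_LP lam hlam))
    rintro k ⟨v, B, A, q, hd, hA, h⟩
    exact ⟨v, B, A, q, ⟨hd.two_le, hd.lt, hd.size, hd.pair⟩, hA, h⟩
  · intro ε hε
    obtain ⟨N0, hN0⟩ := Pool.Agent.L0h26.HbQ.count_VT lam hlam ε hε
    filter_upwards [eventually_ge_atTop N0] with N hN
    refine le_trans ?_ (hN0 N hN)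
    have h1 := Set.ncard_le_ncard (s := {k : ℕ | k ≤ N ∧ HasTransitive lam k})
      (t := {k : ℕ | k ≤ N ∧ Pool.Agent.L0h26.HbQ.VT lam k}) (by
        rintro k ⟨hk, v, B, A, hd, hA, h⟩
        exact ⟨hk, v, B, A, ⟨hd.two_le, hd.lt, hd.size, hd.pair⟩, hA, h.symm⟩)
      (Pool.Agent.H634R3.AA.fin_le N _)
    exact_mod_cast h1

end Pool.Agent.Results.MP_c38931_co.LargePrimesTransitive
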