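import Mathlib
import Pool.Agent.L0h26.HbQ
import Pool.Agent.Y344.HD.Grp

set_option autoImplicit false

/-!
# Fixed `lam`: automorphisms of prime power order, no condition on the size of the prime

Let `lam ≥ 1` be fixed. For all `k` outside a set of density zero, every automorphism of every
symmetric `2-(v, k, lam)` design whose order is a power of a prime divisor `q` of `v` fixes an odd
number of points; in particular every automorphism of prime power order fixes a point. The starting
result `OddFixedPoints` has the additional condition `q ≤ k ^ (1 - ε)` for some `ε > 0`; now `q` is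
any prime divisor of `v` (it may be as large as `v`). As a consequence the conditions on the size of
the primes in the starting result `PointTransitiveGroups` can be removed.

Proof. If an automorphism `σ` of order a power of `q` has an even number of fixed points then, apart
from few `k`, all exact prime divisors `p` of `n = k - lam` satisfy `(p / q) ≠ -1`. For
`q > 2 ^ J X` one passes to the cofactor `s = v / q ≤ X / 2 ^ J`: by the theorem of Bruck, Ryser and
Chowla and by quadratic reciprocity `(p / v) = 1`, so `(p / s) ≠ -1` for these `p`, and all prime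
divisors `l ≤ X` of `v` which do not divide `lam` divide `s`. For fixed `s` this is a sieve condition
on `n` in the residue classes modulo `s` in which `s ∣ v`; its dimension is at least one. The sum over
all `s ≤ X / 2 ^ J` is at most `ε X`, by a large sieve type second moment for the characters
`(l / s)` and by a mean value theorem for `∑ (1 * χ) (s)`, where `χ` is the character of discriminant
`1 - 4 lam`. For `lam = 1` this is in the starting files; here it is carried out for all `lam`.
-/

namespace Pool.Agent.Results.MP_c38931_co.OddFixedPointsAllPrimes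

open Filter Topology

/-- The blocks `B i` (`i : Fin v`) form a symmetric `2-(v, k, lam)` design on the points `Fin v`
with `2 ≤ k < v`. -/
structure IsSymmetricDesign (v k lam : ℕ) (B : Fin v → Finset (Fin v)) : Prop where
  two_le : 2 ≤ k
  lt : k < v
  size : ∀ i, (B i).card = k
  pair : ∀ x y : Fin v, x ≠ y →
    (Finset.univ.filter (fun i => x ∈ B i ∧ y ∈ B i)).card = lam

/-- The permutation `σ` of the points maps every block to a block. -/
def IsAutomorphism {v : ℕ} (B : Fin v → Finset (Fin v)) (σ : Equiv.Perm (Fin v)) : Prop :=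
  ∀ i, ∃ j, (B i).image σ = B j

/-- Some symmetric `2-(v, k, lam)` design has an automorphism `σ` whose order is a power of a
prime `q`, where `q ∣ v` or `q ≤ Q`, and which fixes an even number of points. -/
def HasEven (lam Q k : ℕ) : Prop :=
  ∃ (v : ℕ) (B : Fin v → Finset (Fin v)) (σ : Equiv.Perm (Fin v)) (q a : ℕ),
    IsSymmetricDesign v k lam B ∧ IsAutomorphism B σ ∧ q.Prime ∧ (q ∣ v ∨ q ≤ Q) ∧
      orderOf σ = q ^ a ∧ Even (Finset.univ.filter (fun x : Fin v => σ x = x)).card

/-- Some symmetric `2-(v, k, lam)` design has an automorphism of prime power order without fixed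
points. -/
def HasFree (lam k : ℕ) : Prop :=
  ∃ (v : ℕ) (B : Fin v → Finset (Fin v)) (σ : Equiv.Perm (Fin v)),
    IsSymmetricDesign v k lam B ∧ IsAutomorphism B σ ∧ IsPrimePow (orderOf σ) ∧ ∀ x, σ x ≠ x

/-- The points `Fin v` have a partition (with class map `c`) into `m` nonempty classes which is
invariant under `H`, where `r ^ a ∣ m < r ^ (a + 1)` for some prime `r` and some `a ≥ 1` (for instance
`m > 1` is a power of a prime). -/
def DominantPrimePower (v : ℕ) (H : Subgroup (Equiv.Perm (Fin v))) : Prop :=
  ∃ (m r a : ℕ) (c : Fin v → Fin m), Function.Surjective c ∧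
    (∀ h ∈ H, ∀ x y, c x = c y → c (h x) = c (h y)) ∧
      r.Prime ∧ 1 ≤ a ∧ r ^ a ∣ m ∧ m < r ^ (a + 1)

/-- Some prime divisor `q` of `v` does not divide the order of the stabilizer of some point. -/
def PrimeOutsideStabilizer (v : ℕ) (H : Subgroup (Equiv.Perm (Fin v))) : Prop :=
  ∃ (q : ℕ) (x : Fin v), q.Prime ∧ q ∣ v ∧ ¬ q ∣ Nat.card (MulAction.stabilizer H x)

/-- The Sylow `q`-subgroups of `H` are cyclic for some prime divisor `q` of `v`. -/
def CyclicSylow (v : ℕ) (H : Subgroup (Equiv.Perm (Fin v))) : Prop :=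
  ∃ (q : ℕ) (P : Sylow q H), q.Prime ∧ q ∣ v ∧ IsCyclic P

/-- Some symmetric `2-(v, k, lam)` design has a point-transitive group `H` of automorphisms with
`DominantPrimePower v H`, `PrimeOutsideStabilizer v H` or `CyclicSylow v H`. -/
def HasTransitive (lam k : ℕ) : Prop :=
  ∃ (v : ℕ) (B : Fin v → Finset (Fin v)) (H : Subgroup (Equiv.Perm (Fin v))),
    IsSymmetricDesign v k lam B ∧ (∀ h ∈ H, IsAutomorphism B h) ∧
      (∀ x y : Fin v, ∃ h ∈ H, h x = y) ∧
      (DominantPrimePower v H ∨ PrimeOutsideStabilizer v H ∨ CyclicSylow v H)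

/-- a fixed-point-free automorphism of prime power order -/
theorem even_of_free {v k lam Q q b : ℕ} {B : Fin v → Finset (Fin v)}
    (h : IsSymmetricDesign v k lam B) {σ : Equiv.Perm (Fin v)} (haut : IsAutomorphism B σ)
    (hq : q.Prime) (hord : orderOf σ = q ^ b) (hfree : ∀ x, σ x ≠ x) : HasEven lam Q k := by
  have hF : Fact q.Prime := ⟨hq⟩
  have hpow : σ ^ (q ^ b) = 1 := by rw [← hord]; exact pow_orderOf_eq_one σ
  have h0 : (Finset.univ.filter (fun x : Fin v => σ x = x)) = ∅ := by
    rw [Finset.filter_eq_empty_iff]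
    intro x _
    exact hfree x
  have h1 := Equiv.Perm.card_compl_support_modEq (p := q) (n := b) hpow
  have h2 : (Equiv.Perm.support σ)ᶜ = Finset.univ.filter (fun x : Fin v => σ x = x) := by
    ext x
    simp
  rw [h2, h0, Finset.card_empty, Fintype.card_fin] at h1
  have h3 : q ∣ v := (Nat.modEq_zero_iff_dvd.1 h1.symm)
  exact ⟨v, B, σ, q, b, h, haut, hq, Or.inl h3, hord, by rw [h0]; simp⟩

theorem small_even (lam : ℕ) (hlam : 1 ≤ lam) (Q : ℕ) :
    Pool.Agent.H634R3.AA.Small (HasEven lam Q) := by
  refine Pool.Agent.L0h26.HbQ.small_of_le ?_ (Pool.Agent.L0h26.HbL.small_KV lam hlam Q)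
  rintro k ⟨v, B, σ, q, a, hd, haut, hq, hqv, hord, heven⟩
  exact ⟨hd.two_le, v, B, σ, q, a, hd.lt, hd.size, hd.pair, haut, hq, hqv,
    by rw [← hord]; exact pow_orderOf_eq_one σ, heven⟩

/-- Let `lam ≥ 1`. Each of the following sets has natural density zero.
(1) (For every `Q`.) The set of all `k` for which some symmetric `2-(v, k, lam)` design has an
automorphism whose order is a power of a prime `q` with `q ∣ v` or `q ≤ Q` and which fixes an even
number of points.
(2) The set of all `k` for which some symmetric `2-(v, k, lam)` design has an automorphism of prime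
power order without fixed points.
(3) The set of all `k` for which some symmetric `2-(v, k, lam)` design has a point-transitive
group `H` of automorphisms with `DominantPrimePower`, `PrimeOutsideStabilizer` or `CyclicSylow`. -/
theorem result (lam : ℕ) (hlam : 1 ≤ lam) :
    (∀ Q : ℕ, Tendsto (fun N : ℕ => ({k : ℕ | k ≤ N ∧ HasEven lam Q k}.ncard : ℝ) / (N : ℝ))
      atTop (𝓝 0)) ∧
    Tendsto (fun N : ℕ => ({k : ℕ | k ≤ N ∧ HasFree lam k}.ncard : ℝ) / (N : ℝ)) atTop (𝓝 0) ∧
    Tendsto (fun N : ℕ => ({k : ℕ | k ≤ N ∧ HasTransitive lam k}.ncard : ℝ) / (N : ℝ))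
      atTop (𝓝 0) := by
  refine ⟨fun Q => Pool.Agent.L0h26.HbQ.small_tends (small_even lam hlam Q),
    Pool.Agent.L0h26.HbQ.small_tends
      (Pool.Agent.L0h26.HbQ.small_of_le ?_ (small_even lam hlam 0)),
    Pool.Agent.L0h26.HbQ.small_tends
      (Pool.Agent.L0h26.HbQ.small_of_le ?_ (small_even lam hlam 0))⟩
  · rintro k ⟨v, B, σ, hd, haut, ⟨q, b, hq, -, hqb⟩, hfree⟩
    exact even_of_free hd haut (Nat.prime_iff.2 hq) hqb.symm hfree
  · rintro k ⟨v, B, H, hd, haut, htr, hc⟩
    have hv : 0 < v := by
      have h1 := hd.two_le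
      have h2 := hd.lt
      omega
    rcases hc with ⟨m, r, a, f, hc1, hc2, hr, ha, h1, h2⟩ | ⟨q, x, hq, hqv, hx⟩ |
      ⟨q, P, hq, hqv, hP⟩
    · obtain ⟨σ, hσ, ⟨b, hb⟩, hfree⟩ := Pool.Agent.TH669.PT.exists_of_partition
        hv H htr f hc1 hc2 hr ha h1 h2
      exact even_of_free hd (haut σ hσ) hr hb hfree
    · obtain ⟨σ, hσ, ⟨b, hb⟩, hfree⟩ := Pool.Agent.TH669.PT.exists_of_stabilizer
        H htr hq hqv x hx
      exact even_of_free hd (haut σ hσ) hq hb hfree
    · obtain ⟨σ, hσ, ⟨b, hb⟩, hfree⟩ := Pool.Agent.Y344.HD.exists_of_cyclic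
        H htr hq hqv P hP
      exact even_of_free hd (haut σ hσ) hq hb hfree

end Pool.Agent.Results.MP_c38931_co.OddFixedPointsAllPrimes
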